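import Pool.Agent.helper60.EPT.SpecS

/-!
# Row sr:BND of the project EPT (MP_2b48c2_lc): the sizes
-/

set_option autoImplicit false

namespace Pool.Agent.EPT

open D

theorem BND_size (L : D) (K : ℕ) (h : ∀ G ∈ L.toList, G.size ≤ K) :
    L.size ≤ L.toList.length * (K + 1) + 1 := by
  have h1 := size_ofList L.toList
  rw [ofList_toList] at h1
  have h2 : (L.toList.map size).sum ≤ L.toList.length * K := by
    have h3 := List.sum_le_card_nsmul (L.toList.map size) K (by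
      intro s hs
      obtain ⟨G, hG, rfl⟩ := List.mem_map.1 hs
      exact h G hG)
    simpa using h3
  rw [h1]
  have : L.toList.length * (K + 1) = L.toList.length * K + L.toList.length := by ring
  omega

theorem BND_nvar (z : D) : nvar z ≤ 3 * z.toList.length := by
  unfold nvar
  refine (List.toFinset_card_le _).trans ?_
  rw [List.length_flatMap]
  simp
  omega

theorem BND_tmr (z A : D) : (tmr z A).toList.length = (z.toList.length + 1) * (10 + 30 * A.toList.length) := by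
  unfold tmr
  rw [toList_ofList, List.length_flatMap]
  simp [List.length_flatMap]
  ring

theorem BND_sum (l : List D) (f : D → ℕ) (K : ℕ) (h : ∀ G ∈ l, f G ≤ K) : (l.map f).sum ≤ l.length * K := by
  have h3 := List.sum_le_card_nsmul (l.map f) K (by
    intro s hs
    obtain ⟨G, hG, rfl⟩ := List.mem_map.1 hs
    exact h G hG)
  simpa using h3

/-- the numerical estimate -/
theorem BND_num (P Z N a c0 : ℕ) (E F len : ℝ) (T : ℕ) (hN : N ≤ 3 * Z) (hZ : 1 ≤ Z)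
    (hP : P = (2 * N + 5) ^ 3 * (3 * (Z + 10) + 5) + 1) (hT : T ≤ Z * (10 + 30 * a)) (hE : 1 ≤ E)
    (hlen : len ≤ 2 * E) (hlen0 : 0 ≤ len) (hF : E ≤ F) :
    ((T : ℝ) + 1) * (len * (P + 1) + 1) + (Z + c0) ≤
      (101161 * (11 + 30 * a) + 1 + c0) * F * (Z : ℝ) ^ 5 := by
  have hZr : (1 : ℝ) ≤ Z := by exact_mod_cast hZ
  have hNr : (N : ℝ) ≤ 3 * Z := by exact_mod_cast hN
  have hTr : (T : ℝ) ≤ Z * (10 + 30 * a) := by exact_mod_cast hT
  have ha : (0 : ℝ) ≤ a := Nat.cast_nonneg a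
  have hc0 : (0 : ℝ) ≤ c0 := Nat.cast_nonneg c0
  have hN0 : (0 : ℝ) ≤ N := Nat.cast_nonneg N
  have hPr : (P : ℝ) + 1 ≤ 50580 * (Z : ℝ) ^ 4 := by
    have h1 : (P : ℝ) = (2 * N + 5) ^ 3 * (3 * (Z + 10) + 5) + 1 := by
      rw [hP]; push_cast; ring
    have h2 : (2 * (N : ℝ) + 5) ^ 3 ≤ (11 * Z) ^ 3 := by
      apply pow_le_pow_left₀ (by positivity)
      linarith
    have h3 : (3 * ((Z : ℝ) + 10) + 5) ≤ 38 * Z := by linarith
    have h4 : (2 * (N : ℝ) + 5) ^ 3 * (3 * (Z + 10) + 5) ≤ (11 * Z) ^ 3 * (38 * Z) :=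
      mul_le_mul h2 h3 (by positivity) (by positivity)
    have h5 : (1 : ℝ) ≤ (Z : ℝ) ^ 4 := one_le_pow₀ hZr
    rw [h1]
    nlinarith [h4, h5]
  have hZ4 : (1 : ℝ) ≤ (Z : ℝ) ^ 4 := one_le_pow₀ hZr
  have hP0 : (0 : ℝ) ≤ (P : ℝ) + 1 := by positivity
  have h6 : len * (P + 1) + 1 ≤ 101161 * E * (Z : ℝ) ^ 4 := by
    have h7 : len * (P + 1) ≤ (2 * E) * (50580 * (Z : ℝ) ^ 4) :=
      mul_le_mul hlen hPr hP0 (by positivity)
    have h8 : (1 : ℝ) ≤ E * (Z : ℝ) ^ 4 := by nlinarith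
    nlinarith
  have h9 : (T : ℝ) + 1 ≤ (11 + 30 * a) * Z := by nlinarith
  have h10 : ((T : ℝ) + 1) * (len * (P + 1) + 1) ≤ ((11 + 30 * a) * Z) * (101161 * E * (Z : ℝ) ^ 4) :=
    mul_le_mul h9 h6 (by positivity) (by positivity)
  have h11 : ((11 + 30 * a) * Z) * (101161 * E * (Z : ℝ) ^ 4) ≤ (101161 * (11 + 30 * a)) * F * (Z : ℝ) ^ 5 := by
    have : ((11 + 30 * (a : ℝ)) * Z) * (101161 * E * (Z : ℝ) ^ 4) = (101161 * (11 + 30 * a)) * E * (Z : ℝ) ^ 5 := by ring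
    rw [this]
    have h12 : (0 : ℝ) ≤ (101161 * (11 + 30 * a)) := by positivity
    exact mul_le_mul_of_nonneg_right (mul_le_mul_of_nonneg_left hF h12) (by positivity)
  have hF1 : 1 ≤ F := hE.trans hF
  have h13 : (Z : ℝ) ≤ F * (Z : ℝ) ^ 5 := by
    have h14 : (Z : ℝ) ≤ (Z : ℝ) ^ 5 := by
      have := pow_le_pow_right₀ hZr (show 1 ≤ 5 by norm_num)
      simpa using this
    have h15 : (Z : ℝ) ^ 5 ≤ F * (Z : ℝ) ^ 5 := le_mul_of_one_le_left (by positivity) hF1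
    linarith
  have h16 : (c0 : ℝ) ≤ c0 * (F * (Z : ℝ) ^ 5) := by
    have h17 : (1 : ℝ) ≤ F * (Z : ℝ) ^ 5 := by linarith
    exact le_mul_of_one_le_right hc0 h17
  calc ((T : ℝ) + 1) * (len * (P + 1) + 1) + (Z + c0)
      ≤ (101161 * (11 + 30 * a)) * F * (Z : ℝ) ^ 5 + (F * (Z : ℝ) ^ 5 + c0 * (F * (Z : ℝ) ^ 5)) := by
        linarith
    _ = (101161 * (11 + 30 * a) + 1 + c0) * F * (Z : ℝ) ^ 5 := by ring

theorem BND (hCRR : CRR_stmt) (hSRE : SRE_stmt) (hFGR : FGR_stmt) : BND_stmt := by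
  intro j hj
  have hj0 : (0 : ℝ) < j := by exact_mod_cast hj
  obtain ⟨a, b, x, y, hW, hxy⟩ := hSRE (1 / (4 * j)) (by positivity)
  obtain ⟨C1, hC1⟩ := hFGR (1 + a + b) (2 * j) (by omega) (by omega)
  obtain ⟨A, hAl⟩ : ∃ A : D, A.toList.length = a := ⟨ofList (List.replicate a nil), by simp⟩
  obtain ⟨B, hBl⟩ : ∃ B : D, B.toList.length = b := ⟨ofList (List.replicate b nil), by simp⟩
  refine ⟨A, B, 101161 * (11 + 30 * a) + 1 + ((cons A B).size + 1) + 2 ^ (C1 + 1), x, y,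
    by rw [hAl, hBl]; exact hW, ?_⟩
  intro z
  obtain ⟨_, hcv, hfr⟩ := hCRR z A B x y (by rw [hAl, hBl]; exact hW)
  obtain ⟨X, hX⟩ : ∃ X : D, X = cons z (cons A B) := ⟨_, rfl⟩
  rw [← hX] at hcv hfr ⊢
  obtain ⟨N, hN⟩ : ∃ N : ℕ, N = nvar z := ⟨_, rfl⟩
  rw [← hN] at hcv hfr ⊢
  obtain ⟨Z, hZ⟩ : ∃ Z : ℕ, Z = z.size := ⟨_, rfl⟩
  rw [← hZ] at hfr ⊢
  rw [hAl, hBl] at hcv
  rw [hAl] at hfr
  have hZ1 : 1 ≤ Z := by rw [hZ]; exact size_pos z
  have hm : z.toList.length + 1 ≤ Z := by rw [hZ]; exact length_le_size z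
  have hN3 : N ≤ 3 * Z := by
    have := BND_nvar z
    omega
  -- the numbers
  obtain ⟨E, hE⟩ : ∃ E : ℝ, E = (2 : ℝ) ^ ((N : ℝ) / (2 * j)) := ⟨_, rfl⟩
  obtain ⟨F, hF⟩ : ∃ F : ℝ, F = (2 : ℝ) ^ ((N : ℝ) / j) := ⟨_, rfl⟩
  have hE1 : 1 ≤ E := by
    rw [hE]; exact Real.one_le_rpow (by norm_num) (by positivity)
  have hEE : E * E = F := by
    rw [hE, hF, ← Real.rpow_add (by norm_num)]
    congr 1
    field_simp
    ring
  have hEF : E ≤ F := by nlinarith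
  have hlen : ∀ n : ℕ, (((frk X n).toList.length : ℕ) : ℝ) ≤ 2 * E := by
    intro n
    refine (hfr n).1.trans ?_
    have h1 : (x + 3 * a * y) * (2 * N + 4) ≤ (N : ℝ) / (2 * j) + 1 := by
      have h2 : (x + 3 * a * y) * (2 * N + 4) ≤ (1 / (4 * j)) * (2 * N + 4) :=
        mul_le_mul_of_nonneg_right hxy (by positivity)
      have h3 : (1 / (4 * (j : ℝ))) * (2 * N + 4) = (N : ℝ) / (2 * j) + 1 / j := by
        field_simp
        ring
      have h4 : 1 / (j : ℝ) ≤ 1 := by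
        rw [div_le_one hj0]
        exact_mod_cast hj
      linarith
    calc (2 : ℝ) ^ ((x + 3 * a * y) * (2 * N + 4)) ≤ (2 : ℝ) ^ ((N : ℝ) / (2 * j) + 1) :=
          Real.rpow_le_rpow_of_exponent_le (by norm_num) h1
      _ = 2 * E := by
        rw [Real.rpow_add (by norm_num), Real.rpow_one, ← hE]; ring
  obtain ⟨P, hP⟩ : ∃ P : ℕ, P = (2 * N + 5) ^ 3 * (3 * (Z + 10) + 5) + 1 := ⟨_, rfl⟩
  have hsz : ∀ n : ℕ, (((frk X n).size : ℕ) : ℝ) ≤ 2 * E * (P + 1) + 1 := by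
    intro n
    have h1 := BND_size (frk X n) P (by rw [hP]; exact (hfr n).2)
    have h2 : (((frk X n).size : ℕ) : ℝ) ≤ ((frk X n).toList.length : ℝ) * (P + 1) + 1 := by
      exact_mod_cast h1
    have h3 : ((frk X n).toList.length : ℝ) * ((P : ℝ) + 1) ≤ 2 * E * (P + 1) :=
      mul_le_mul_of_nonneg_right (hlen n) (by positivity)
    linarith
  obtain ⟨T, hT⟩ : ∃ T : ℕ, T = (tmr X.fst X.snd.fst).toList.length := ⟨_, rfl⟩
  have hT' : T ≤ Z * (10 + 30 * a) := by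
    rw [hT, hX]
    show (tmr z A).toList.length ≤ _
    rw [BND_tmr, hAl]
    exact Nat.mul_le_mul_right _ hm
  have hXs : X.size = Z + ((cons A B).size + 1) := by
    rw [hX, size_cons, ← hZ]; ring
  have hS1 : ((S1 X : ℕ) : ℝ) ≤ ((T : ℝ) + 1) * (2 * E * (P + 1) + 1) + (Z + ((cons A B).size + 1 : ℕ)) := by
    unfold S1
    rw [← hT, hXs]
    push_cast
    have h1 : ∑ n ∈ Finset.range (T + 1), ((frk X n).size : ℝ) ≤ ((T : ℝ) + 1) * (2 * E * (P + 1) + 1) := by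
      have h2 := Finset.sum_le_card_nsmul (Finset.range (T + 1)) (fun n => ((frk X n).size : ℝ)) (2 * E * (P + 1) + 1)
        (fun n _ => hsz n)
      rw [Finset.card_range, nsmul_eq_mul] at h2
      push_cast at h2
      exact h2
    linarith
  have hnum := BND_num P Z N a ((cons A B).size + 1) E F (2 * E) T hN3 hZ1 hP hT' hE1 le_rfl (by linarith) hEF
  -- the second sum
  have hMx : ∀ G ∈ (frt X).toList, 2 ^ Mx (cv G) ≤ 2 ^ (N / (2 * j) + C1) := by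
    intro G hG
    apply Nat.pow_le_pow_right (by norm_num)
    exact hC1 N _ (hcv G hG)
  have hS3 := BND_sum (frt X).toList (fun G => 2 ^ Mx (cv G)) (2 ^ (N / (2 * j) + C1)) hMx
  have hfl : ((2 : ℝ) ^ (N / (2 * j) + C1 : ℕ)) ≤ E * 2 ^ C1 := by
    rw [pow_add]
    apply mul_le_mul_of_nonneg_right _ (by positivity)
    rw [hE, ← Real.rpow_natCast]
    apply Real.rpow_le_rpow_of_exponent_le (by norm_num)
    have := @Nat.cast_div_le ℝ _ _ _ N (2 * j)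
    push_cast at this
    exact this
  have hS3' : ((((frt X).toList.map fun G => 2 ^ Mx (cv G)).sum : ℕ) : ℝ) ≤ 2 ^ (C1 + 1) * F := by
    have h1 : ((((frt X).toList.map fun G => 2 ^ Mx (cv G)).sum : ℕ) : ℝ) ≤
        ((frt X).toList.length : ℝ) * (2 : ℝ) ^ (N / (2 * j) + C1 : ℕ) := by
      exact_mod_cast hS3
    have h2 : ((frt X).toList.length : ℝ) ≤ 2 * E := hlen _
    have h3 : ((frt X).toList.length : ℝ) * (2 : ℝ) ^ (N / (2 * j) + C1 : ℕ) ≤ (2 * E) * (E * 2 ^ C1) :=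
      mul_le_mul h2 hfl (by positivity) (by positivity)
    have h4 : (2 * E) * (E * 2 ^ C1) = 2 ^ (C1 + 1) * F := by
      rw [← hEE, pow_succ]; ring
    linarith
  have hZr : (1 : ℝ) ≤ Z := by exact_mod_cast hZ1
  have hF1 : 1 ≤ F := hE1.trans hEF
  have h5 : F ≤ F * (Z : ℝ) ^ 5 := le_mul_of_one_le_right (by linarith) (one_le_pow₀ hZr)
  have hS2 : ((S2 X : ℕ) : ℝ) ≤
      (101161 * (11 + 30 * a) + 1 + ((cons A B).size + 1 : ℕ) + 2 ^ (C1 + 1)) * F * (Z : ℝ) ^ 5 := by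
    unfold S2
    push_cast
    have h6 : (2 : ℝ) ^ (C1 + 1) * F ≤ 2 ^ (C1 + 1) * (F * (Z : ℝ) ^ 5) :=
      mul_le_mul_of_nonneg_left h5 (by positivity)
    have h7 : (101161 * (11 + 30 * (a : ℝ)) + 1 + ((cons A B).size + 1 : ℕ) + 2 ^ (C1 + 1)) * F * (Z : ℝ) ^ 5 =
      (101161 * (11 + 30 * a) + 1 + ((cons A B).size + 1 : ℕ)) * F * (Z : ℝ) ^ 5 + 2 ^ (C1 + 1) * (F * (Z : ℝ) ^ 5) := by ring
    push_cast at h7 hS1 hnum hS3'
    rw [h7]
    linarith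
  have hC5 : (Z : ℝ) ^ 5 ≤ (Z : ℝ) ^ (101161 * (11 + 30 * a) + 1 + ((cons A B).size + 1) + 2 ^ (C1 + 1)) :=
    pow_le_pow_right₀ hZr (by
      have h9 : 0 < 2 ^ (C1 + 1) := by positivity
      omega)
  refine hS2.trans ?_
  rw [← hF]
  have h8 : ((101161 * (11 + 30 * a) + 1 + ((cons A B).size + 1) + 2 ^ (C1 + 1) : ℕ) : ℝ) =
    101161 * (11 + 30 * a) + 1 + ((cons A B).size + 1 : ℕ) + 2 ^ (C1 + 1) := by push_cast; ring
  rw [h8]
  exact mul_le_mul_of_nonneg_left hC5 (by positivity)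

end Pool.Agent.EPT
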